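import Pool.Agent.helper17.LQ.SpecQ

/-!
# MP_07c750, project LQ, row QUG (helper23)

From the grid to all scales.
-/

open MeasureTheory Set

set_option autoImplicit false

namespace Pool.Agent.LP

noncomputable section

theorem QUG_fin (U : Set ℝ) (x y : ℝ) : volume (U ∩ Icc x y) ≠ ⊤ :=
  ne_top_of_le_ne_top (by simp) (measure_mono inter_subset_right : volume (U ∩ Icc x y) ≤ volume (Icc x y))

theorem QUG_mono (U : Set ℝ) (x y x' y' : ℝ) (h : Icc x y ⊆ Icc x' y') : volume.real (U ∩ Icc x y) ≤ volume.real (U ∩ Icc x' y') :=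
  measureReal_mono (inter_subset_inter_right U h) (QUG_fin U x' y')

theorem QUG_four (U : Set ℝ) (y B : ℝ) (h : ∀ z : ℝ, volume.real (U ∩ Icc z (z + 1)) ≤ B) : volume.real (U ∩ Icc y (y + 4)) ≤ 4 * B := by
  have hs : U ∩ Icc y (y + 4) ⊆ ((U ∩ Icc y (y + 1)) ∪ (U ∩ Icc (y + 1) (y + 1 + 1))) ∪ ((U ∩ Icc (y + 2) (y + 2 + 1)) ∪ (U ∩ Icc (y + 3) (y + 3 + 1))) := by
    rintro x ⟨hx, h1, h2⟩
    by_cases h3 : x ≤ y + 1
    · exact Or.inl (Or.inl ⟨hx, h1, h3⟩)
    · push Not at h3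
      by_cases h4 : x ≤ y + 1 + 1
      · exact Or.inl (Or.inr ⟨hx, h3.le, h4⟩)
      · push Not at h4
        by_cases h5 : x ≤ y + 2 + 1
        · exact Or.inr (Or.inl ⟨hx, by linarith, h5⟩)
        · push Not at h5
          exact Or.inr (Or.inr ⟨hx, by linarith, by linarith⟩)
  have hfin : volume (((U ∩ Icc y (y + 1)) ∪ (U ∩ Icc (y + 1) (y + 1 + 1))) ∪ ((U ∩ Icc (y + 2) (y + 2 + 1)) ∪ (U ∩ Icc (y + 3) (y + 3 + 1)))) ≠ ⊤ :=
    measure_union_ne_top (measure_union_ne_top (QUG_fin U _ _) (QUG_fin U _ _)) (measure_union_ne_top (QUG_fin U _ _) (QUG_fin U _ _))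
  have h1 := measureReal_mono hs hfin
  have h2 := measureReal_union_le (μ := volume) ((U ∩ Icc y (y + 1)) ∪ (U ∩ Icc (y + 1) (y + 1 + 1))) ((U ∩ Icc (y + 2) (y + 2 + 1)) ∪ (U ∩ Icc (y + 3) (y + 3 + 1)))
  have h3 := measureReal_union_le (μ := volume) (U ∩ Icc y (y + 1)) (U ∩ Icc (y + 1) (y + 1 + 1))
  have h4 := measureReal_union_le (μ := volume) (U ∩ Icc (y + 2) (y + 2 + 1)) (U ∩ Icc (y + 3) (y + 3 + 1))
  have := h y
  have := h (y + 1)
  have := h (y + 2)
  have := h (y + 3)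
  linarith

theorem QUG_proof : QUG_stmt := by
  intro C1 h η G m U hC1 hh hη hη1 hG hm hU
  intro y r hr hr4
  have hm1 : (1 : ℝ) ≤ m := by exact_mod_cast hm
  have hG1 : (1 : ℝ) ≤ G := by exact_mod_cast hG
  have hN : Real.exp ((G : ℝ) * m) ^ (h - 1) = Real.exp ((G : ℝ) * m * (h - 1)) := by
    rw [← Real.exp_mul]
  have hrpos : 0 < r := lt_of_lt_of_le (by positivity) hr
  rw [hN]
  by_cases hr1 : r ≤ 1
  · -- the scale
    have hlog0 : 0 ≤ -Real.log r := by
      have := Real.log_nonpos hrpos.le hr1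
      linarith
    have hlogG : -Real.log r ≤ (G : ℝ) * m := by
      rw [one_div, ← Real.exp_neg] at hr
      have h1 := Real.log_le_log (Real.exp_pos _) hr
      rw [Real.log_exp] at h1
      linarith
    obtain ⟨i, hi⟩ : ∃ i : ℕ, i = ⌊-Real.log r / m⌋₊ := ⟨_, rfl⟩
    have hi1 : (i : ℝ) * m ≤ -Real.log r := by
      have h1 : (i : ℝ) ≤ -Real.log r / m := by
        rw [hi]; exact Nat.floor_le (by positivity)
      rwa [le_div_iff₀ (by linarith)] at h1
    have hi2 : -Real.log r < ((i : ℝ) + 1) * m := by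
      have h1 : -Real.log r / m < (i : ℝ) + 1 := by
        rw [hi]; exact Nat.lt_floor_add_one _
      rwa [div_lt_iff₀ (by linarith)] at h1
    have hiG : i ≤ G := by
      have h1 : (i : ℝ) * m ≤ G * m := hi1.trans hlogG
      have h2 : (i : ℝ) ≤ G := le_of_mul_le_mul_right h1 (by linarith)
      exact_mod_cast h2
    have hr2 : r ≤ Real.exp (-((i : ℝ) * m)) := by
      rw [← Real.exp_log hrpos]
      exact Real.exp_le_exp.2 (by linarith)
    have hrh : Real.exp (-(((i : ℝ) + 1) * m) * h) ≤ r ^ h := by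
      rw [Real.exp_mul]
      refine Real.rpow_le_rpow (Real.exp_pos _).le ?_ hh
      rw [← Real.exp_log hrpos]
      exact Real.exp_le_exp.2 (by linarith)
    have h3 := (QUG_mono U y (y + r) y (y + Real.exp (-((i : ℝ) * m))) (Icc_subset_Icc_right (by linarith))).trans (hU i hiG y)
    refine h3.trans ?_
    have h4 : C1 * Real.exp ((h + η - 1) * (((G : ℝ) - i) * m) - i * m) ≤ C1 * (Real.exp (m + η * (G * m)) * Real.exp ((G : ℝ) * m * (h - 1)) * Real.exp (-(((i : ℝ) + 1) * m) * h)) := by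
      refine mul_le_mul_of_nonneg_left ?_ (by linarith)
      rw [← Real.exp_add, ← Real.exp_add]
      refine Real.exp_le_exp.2 ?_
      have h5 : (m : ℝ) + η * (G * m) + (G : ℝ) * m * (h - 1) + -(((i : ℝ) + 1) * m) * h - ((h + η - 1) * (((G : ℝ) - i) * m) - i * m) = (m : ℝ) * (1 - h) + η * i * m := by ring
      have h6 : 0 ≤ (m : ℝ) * (1 - h) + η * i * m := by
        have h7 : 0 ≤ (m : ℝ) * (1 - h) := mul_nonneg (by linarith) (by linarith)
        have h8 : 0 ≤ η * i * m := by positivity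
        linarith
      linarith
    have h9 : C1 * (Real.exp (m + η * (G * m)) * Real.exp ((G : ℝ) * m * (h - 1)) * Real.exp (-(((i : ℝ) + 1) * m) * h)) ≤ C1 * (Real.exp (m + η * (G * m)) * Real.exp ((G : ℝ) * m * (h - 1)) * r ^ h) :=
      mul_le_mul_of_nonneg_left (mul_le_mul_of_nonneg_left hrh (by positivity)) (by linarith)
    have h10 : 0 ≤ C1 * (Real.exp (m + η * (G * m)) * Real.exp ((G : ℝ) * m * (h - 1)) * r ^ h) := by positivity
    have h11 : 5 * C1 * Real.exp (m + η * (G * m)) * Real.exp ((G : ℝ) * m * (h - 1)) * r ^ h = 5 * (C1 * (Real.exp (m + η * (G * m)) * Real.exp ((G : ℝ) * m * (h - 1)) * r ^ h)) := by ring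
    rw [h11]
    linarith
  · push Not at hr1
    have h1 : ∀ z : ℝ, volume.real (U ∩ Icc z (z + 1)) ≤ C1 * Real.exp ((h + η - 1) * ((G : ℝ) * m)) := by
      intro z
      have h2 := hU 0 (Nat.zero_le _) z
      have h3 : Real.exp (-(((0 : ℕ) : ℝ) * m)) = 1 := by simp
      have h4 : (h + η - 1) * (((G : ℝ) - ((0 : ℕ) : ℝ)) * m) - ((0 : ℕ) : ℝ) * m = (h + η - 1) * ((G : ℝ) * m) := by
        push_cast; ring
      rw [h3, h4] at h2
      exact h2
    have h2 := (QUG_mono U y (y + r) y (y + 4) (Icc_subset_Icc_right (by linarith))).trans (QUG_four U y _ h1)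
    refine h2.trans ?_
    have hrh : 1 ≤ r ^ h := Real.one_le_rpow hr1.le hh
    have h5 : Real.exp ((h + η - 1) * ((G : ℝ) * m)) ≤ Real.exp (m + η * (G * m)) * Real.exp ((G : ℝ) * m * (h - 1)) := by
      rw [← Real.exp_add]
      refine Real.exp_le_exp.2 ?_
      have h6 : (m : ℝ) + η * (G * m) + (G : ℝ) * m * (h - 1) - (h + η - 1) * ((G : ℝ) * m) = m := by ring
      linarith
    have h7 : C1 * Real.exp ((h + η - 1) * ((G : ℝ) * m)) ≤ C1 * (Real.exp (m + η * (G * m)) * Real.exp ((G : ℝ) * m * (h - 1))) :=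
      mul_le_mul_of_nonneg_left h5 (by linarith)
    have h8 : 0 ≤ C1 * (Real.exp (m + η * (G * m)) * Real.exp ((G : ℝ) * m * (h - 1))) := by positivity
    have h9 : C1 * (Real.exp (m + η * (G * m)) * Real.exp ((G : ℝ) * m * (h - 1))) ≤ C1 * (Real.exp (m + η * (G * m)) * Real.exp ((G : ℝ) * m * (h - 1))) * r ^ h :=
      le_mul_of_one_le_right h8 hrh
    have h11 : 5 * C1 * Real.exp (m + η * (G * m)) * Real.exp ((G : ℝ) * m * (h - 1)) * r ^ h = 5 * (C1 * (Real.exp (m + η * (G * m)) * Real.exp ((G : ℝ) * m * (h - 1))) * r ^ h) := by ring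
    rw [h11]
    linarith

end

end Pool.Agent.LP
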