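import Pool.Agent.helper57.LQ.SpecC

/-! # BDS: the induction step for `BD` -/

set_option autoImplicit false

open Finset PowerSeries

noncomputable section

namespace Pool.Agent.LQ

theorem BDS_tri (m j : ℕ) (c : ℕ → ℕ → ZMod 2) (h0 : ∀ k i, Odd k → Odd i → i < k → k ≤ m → c k i = 0)
    (h1 : ∀ k, Odd k → k ≤ m → c k k = 1) : ∀ N, N ≤ m + 1 →
    ∃ K : Finset ℕ, (∀ k ∈ K, Odd k ∧ j ≤ k ∧ k < N) ∧
      ∀ i, Odd i → i < N → ∑ k ∈ K, c k i = if i = j then 1 else 0 := by
  intro N
  induction N with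
  | zero =>
    intro _
    exact ⟨∅, by simp, fun i _ hi => absurd hi (Nat.not_lt_zero _)⟩
  | succ N ih =>
    intro hN
    obtain ⟨K, hK, hs⟩ := ih (by omega)
    by_cases hodd : Odd N
    · by_cases hc : ∑ k ∈ K, c k N = if N = j then 1 else 0
      · refine ⟨K, fun k hk => ⟨(hK k hk).1, (hK k hk).2.1, (hK k hk).2.2.trans (Nat.lt_succ_self N)⟩, ?_⟩
        intro i hi hlt
        rcases Nat.lt_succ_iff_lt_or_eq.1 hlt with h | h
        · exact hs i hi h
        · subst h; exact hc
      · have hjN : j ≤ N := by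
          by_contra hcon
          push Not at hcon
          apply hc
          have hKe : K = ∅ := by
            rw [Finset.eq_empty_iff_forall_notMem]
            intro k hk
            have := hK k hk
            omega
          rw [hKe, if_neg (by omega)]
          simp
        have hNK : N ∉ K := fun h => absurd (hK N h).2.2 (lt_irrefl N)
        refine ⟨insert N K, ?_, ?_⟩
        · intro k hk
          rcases Finset.mem_insert.1 hk with rfl | hk
          · exact ⟨hodd, hjN, Nat.lt_succ_self _⟩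
          · exact ⟨(hK k hk).1, (hK k hk).2.1, (hK k hk).2.2.trans (Nat.lt_succ_self N)⟩
        · intro i hi hlt
          rw [Finset.sum_insert hNK]
          rcases Nat.lt_succ_iff_lt_or_eq.1 hlt with h | h
          · rw [h0 N i hodd hi h (by omega), zero_add]
            exact hs i hi h
          · subst h
            rw [h1 _ hodd (by omega)]
            have hz : ∀ s t : ZMod 2, s ≠ t → 1 + s = t := by decide
            exact hz _ _ hc
    · refine ⟨K, fun k hk => ⟨(hK k hk).1, (hK k hk).2.1, (hK k hk).2.2.trans (Nat.lt_succ_self N)⟩, ?_⟩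
      intro i hi hlt
      rcases Nat.lt_succ_iff_lt_or_eq.1 hlt with h | h
      · exact hs i hi h
      · subst h; exact absurd hi hodd

theorem BDS_GG (hALG : ALG_stmt) (a b : ℕ) : GG a b ∈ TT 2 := by
  have hal := hALG 2 one_lt_two
  have h3 : T 3 ∈ TT 2 := Submodule.subset_span ⟨3, by decide, rfl⟩
  have h5 : T 5 ∈ TT 2 := Submodule.subset_span ⟨5, by decide, rfl⟩
  have hp : ∀ A ∈ TT 2, ∀ k : ℕ, A ^ k ∈ TT 2 := by
    intro A hA k
    induction k with
    | zero => rw [pow_zero]; exact hal.1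
    | succ k ih => rw [pow_succ]; exact (hal.2 _ ih _ hA).1
  exact (hal.2 _ (hp _ h3 a) _ (hp _ h5 b)).1

theorem BDS_c1 (hGN2 : GN2_stmt) (i : ℕ) (hi : Odd i) : coeff 1 (DD ^ i) = if i = 1 then 1 else 0 := by
  by_cases h1 : i = 1
  · subst h1
    rw [pow_one, if_pos rfl]
    exact hGN2.c1
  · rw [if_neg h1]
    have hX : (X : FF) ∣ DD := by
      rw [PowerSeries.X_dvd_iff]
      have := hGN2.c0
      simpa using this
    have h2 : (X : FF) ^ i ∣ DD ^ i := pow_dvd_pow_of_dvd hX i
    rw [PowerSeries.X_pow_dvd_iff] at h2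
    refine h2 1 ?_
    rcases hi with ⟨c, hc⟩
    omega

theorem BDS_R (hGN2 : GN2_stmt) (hALG : ALG_stmt) (hSDF : SDF_stmt) (hGKL : GKL_stmt) (hDRP : DRP_stmt)
    (M : ℕ) (hM : LV M) (m : ℕ) (hm : Odd m) (hm8 : m < 8 * M) (j : ℕ) (hj : Odd j) (hjm : j ≤ m) :
    ∃ R ∈ TT 2, (∀ i, Odd i → i ≤ m → coeff 1 (R (DD ^ i)) = if i = j then 1 else 0) ∧
      R (DD ^ m) ∈ VV 2 DD (m + 2 - j) ∧ (j = 1 → R (DD ^ m) = DD ^ m) := by
  by_cases hj1 : j = 1
  · subst hj1
    refine ⟨1, (hALG 2 one_lt_two).1, ?_, ?_, fun _ => rfl⟩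
    · intro i hi _
      exact BDS_c1 hGN2 i hi
    · refine Submodule.subset_span ⟨m, by omega, ?_, rfl⟩
      rw [Nat.coprime_two_right]; exact hm
  · have hrep : ∀ k : ℕ, ∃ ab : ℕ × ℕ, Odd k → nn ab.1 ab.2 = k - 1 := by
      intro k
      obtain ⟨a, b, hab⟩ := hSDF.2.2.2.1 ((k - 1) / 2)
      refine ⟨(a, b), fun hk => ?_⟩
      unfold nn
      rcases hk with ⟨c, hc⟩
      simp only
      omega
    choose ab hab using hrep
    have hG := fun k (hk : Odd k) (hkm : k ≤ m) => (hGKL M hM (ab k).1 (ab k).2).1 (by rw [hab k hk]; omega)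
    have hk1 : ∀ k : ℕ, Odd k → 1 + (k - 1) = k := by
      rintro k ⟨c, hc⟩
      omega
    obtain ⟨K, hK, hs⟩ := BDS_tri m j (fun k i => coeff 1 (GG (ab k).1 (ab k).2 (DD ^ i)))
      (by
        intro k i hk hi hik hkm
        have h1 := (hG k hk hkm).1 (DD ^ i)
          (Submodule.subset_span ⟨i, by rw [hab k hk, hk1 k hk]; exact hik, by rw [Nat.coprime_two_right]; exact hi, rfl⟩)
        simp only [h1, map_zero])
      (by
        intro k hk hkm
        have h1 := (hG k hk hkm).2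
        rw [hab k hk, hk1 k hk] at h1
        exact h1) (m + 1) le_rfl
    refine ⟨∑ k ∈ K, GG (ab k).1 (ab k).2, Submodule.sum_mem _ (fun k _ => BDS_GG hALG _ _), ?_, ?_,
      fun h => absurd h hj1⟩
    · intro i hi him
      rw [LinearMap.sum_apply, map_sum]
      exact hs i hi (by omega)
    · rw [LinearMap.sum_apply]
      refine Submodule.sum_mem _ (fun k hk => ?_)
      have h2 := hDRP M hM m hm hm8.le (ab k).1 (ab k).2
      rw [hab k (hK k hk).1] at h2
      refine VV_mono 2 DD ?_ h2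
      have := (hK k hk).2
      have := hk1 k (hK k hk).1
      omega

theorem BDS (hGN2 : GN2_stmt) (hALG : ALG_stmt) (hAF1 : AF1_stmt)
    (hSDF : SDF_stmt) (hGKL : GKL_stmt) (hDRP : DRP_stmt) (hGRD : GRD_stmt) : BDS_stmt := by
  classical
  intro M hM m hm hm8
  have hpol : ∀ j : ℕ, ∃ A : Polynomial (ZMod 2), (∀ i, A.coeff i ≠ 0 → Odd i ∧ Odd j ∧ i + j ≤ m + 1) ∧
      (j = 1 → A = Polynomial.X ^ m) ∧ (¬ (Odd j ∧ j ≤ m) → A = 0) ∧
      ((Odd j ∧ j ≤ m) → ∃ R ∈ TT 2, (∀ i, Odd i → i ≤ m → coeff 1 (R (DD ^ i)) = if i = j then 1 else 0) ∧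
        Polynomial.aeval DD A = R (DD ^ m)) := by
    intro j
    by_cases hj : Odd j ∧ j ≤ m
    · obtain ⟨R, hR, hR1, hR2, hR3⟩ := BDS_R hGN2 hALG hSDF hGKL hDRP M hM m hm hm8 j hj.1 hj.2
      by_cases hj1 : j = 1
      · subst hj1
        refine ⟨Polynomial.X ^ m, ?_, fun _ => rfl, fun h => absurd hj h, fun _ => ⟨R, hR, hR1, ?_⟩⟩
        · intro i hi
          rw [Polynomial.coeff_X_pow] at hi
          have : i = m := by
            by_contra hne
            rw [if_neg hne] at hi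
            exact hi rfl
          subst this
          exact ⟨hm, odd_one, le_rfl⟩
        · rw [hR3 rfl, map_pow, Polynomial.aeval_X]
      · obtain ⟨J, hJ, hJs⟩ := hGRD.2.2 (fun i => i < m + 2 - j ∧ i.Coprime 2) DD (R (DD ^ m)) (by
          have h1 := hR2
          unfold VV at h1
          refine Submodule.span_mono ?_ h1
          rintro f ⟨i, h2, h3, h4⟩
          exact ⟨i, ⟨h2, h3⟩, h4⟩)
        refine ⟨∑ i ∈ J, Polynomial.X ^ i, ?_, fun h => absurd h hj1, fun h => absurd hj h,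
          fun _ => ⟨R, hR, hR1, ?_⟩⟩
        · intro i hi
          have hiJ : i ∈ J := by
            by_contra hne
            apply hi
            rw [Polynomial.finsetSum_coeff]
            refine Finset.sum_eq_zero (fun k hk => ?_)
            rw [Polynomial.coeff_X_pow, if_neg]
            rintro rfl
            exact hne hk
          have h5 := hJ i hiJ
          refine ⟨Nat.coprime_two_right.1 h5.2, hj.1, ?_⟩
          have := h5.1
          have := hj.2
          omega
        · rw [map_sum, hJs]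
          refine Finset.sum_congr rfl (fun i _ => ?_)
          rw [map_pow, Polynomial.aeval_X]
    · refine ⟨0, ?_, ?_, fun _ => rfl, fun h => absurd h hj⟩
      · intro i hi
        exact absurd (Polynomial.coeff_zero i) hi
      · rintro rfl
        exact absurd ⟨odd_one, by rcases hm with ⟨c, hc⟩; omega⟩ hj
  choose A hA1 hA2 hA3 hA4 using hpol
  refine ⟨A, fun j i => hA1 j i, hA2 1 rfl, ?_⟩
  intro a b ha hb
  have hac : a.Coprime 2 := Nat.coprime_two_right.2 ha
  have hmc : m.Coprime 2 := Nat.coprime_two_right.2 hm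
  have hT : T a (DD ^ m) ∈ VV 2 DD (m + 1) := hGN2.hec a hac m hmc
  obtain ⟨J, hJ, hJs⟩ := hGRD.2.2 (fun i => i < m + 1 ∧ i.Coprime 2) DD (T a (DD ^ m)) (by
    have h1 := hT
    unfold VV at h1
    refine Submodule.span_mono ?_ h1
    rintro f ⟨i, h2, h3, h4⟩
    exact ⟨i, ⟨h2, h3⟩, h4⟩)
  have hTa : T a ∈ TT 2 := Submodule.subset_span ⟨a, hac, rfl⟩
  have hco : ∀ j : ℕ, Odd j → j ≤ m → coeff a (Polynomial.aeval DD (A j)) = if j ∈ J then 1 else 0 := by
    intro j hj hjm
    obtain ⟨R, hR, hR1, hR2⟩ := hA4 j ⟨hj, hjm⟩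
    rw [hR2]
    have h1 : coeff a (R (DD ^ m)) = coeff 1 (T a (R (DD ^ m))) := by
      have := hAF1 2 one_lt_two 1 (hALG 2 one_lt_two).1 (R (DD ^ m)) a hac
      simpa using this
    have h2 : T a (R (DD ^ m)) = R (T a (DD ^ m)) := by
      have := ((hALG 2 one_lt_two).2 _ hTa _ hR).2
      rw [← Module.End.mul_apply, this, Module.End.mul_apply]
    rw [h1, h2, hJs, map_sum, map_sum]
    rw [Finset.sum_congr rfl (fun i hi => hR1 i (Nat.coprime_two_right.1 (hJ i hi).2) (by have := (hJ i hi).1; omega))]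
    rw [Finset.sum_ite_eq' J j (fun _ => (1 : ZMod 2))]
  rw [hJs, map_sum]
  have hsub : J ⊆ range (m + 1) := fun i hi => Finset.mem_range.2 (hJ i hi).1
  rw [← Finset.sum_subset hsub (f := fun j => coeff a (Polynomial.aeval DD (A j)) * coeff b (DD ^ j))]
  · refine Finset.sum_congr rfl (fun i hi => ?_)
    rw [hco i (Nat.coprime_two_right.1 (hJ i hi).2) (by have := (hJ i hi).1; omega), if_pos hi, one_mul]
  · intro j hj hjJ
    by_cases h : Odd j ∧ j ≤ m
    · rw [hco j h.1 h.2, if_neg hjJ, zero_mul]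
    · rw [hA3 j h, map_zero, map_zero, zero_mul]

end Pool.Agent.LQ
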