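import Pool.Agent.helper57.LQ.SpecB

/-! # GN2: `DD` is a generator of level 2 -/

set_option autoImplicit false

open Finset PowerSeries

noncomputable section

namespace Pool.Agent.LQ

theorem GN2_ex_inj (f g : FF) (h : ex 3 f = ex 3 g) : f = g := by
  ext m
  have h1 := congrArg (coeff (3 * m)) h
  unfold ex at h1
  simpa [coeff_mk] using h1

theorem GN2_T1 : T 1 = 1 := by
  refine LinearMap.ext (fun f => ?_)
  ext m
  rw [coeff_T]
  simp

theorem GN2_prime (hTDL : TDL_stmt) (hHT3 : HT3_stmt) (hTGR : TGR_stmt) (hEXP : EXP_stmt) (hGRD : GRD_stmt)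
    (l : ℕ) (hl : l.Prime) (hl2 : l.Coprime 2) (i : ℕ) (hi : i.Coprime 2) :
    T l (DD ^ i) ∈ VV 2 DD (i + 1) := by
  have hiodd : Odd i := by
    rw [← Nat.coprime_two_right] 
    exact hi
  have hlodd : Odd l := by
    rw [← Nat.coprime_two_right] 
    exact hl2
  by_cases h3 : l = 3
  · subst h3
    have h1 := hHT3 i hiodd
    have h2 : T 3 (DD ^ i) = (T 3 (DD ^ i) + (if i % 4 = 3 then DD ^ (i - 2) else 0)) +
        (if i % 4 = 3 then DD ^ (i - 2) else 0) := by
      rw [add_assoc, add_self_FF, add_zero]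
    rw [h2]
    refine Submodule.add_mem _ (VV_mono 2 DD (by omega) h1) ?_
    by_cases h4 : i % 4 = 3
    · rw [if_pos h4]
      refine Submodule.subset_span ⟨i - 2, by omega, ?_, rfl⟩
      rw [Nat.coprime_two_right]
      rw [Nat.odd_iff]
      omega
    · rw [if_neg h4]
      exact Submodule.zero_mem _
  · have h5 : 5 ≤ l := by
      have h2 := hl.two_le
      rcases hlodd with ⟨c, hc⟩
      omega
    have hi1 : 1 ≤ i := by
      rcases hiodd with ⟨c, hc⟩
      omega
    have h6 := hTDL l hl h5 (3 * i) (by omega)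
    obtain ⟨J, hJ, hJs⟩ := hGRD.2.2 (fun j => 1 ≤ j ∧ j ≤ 3 * i ∧ j % 24 = l * (3 * i) % 24) tt _ h6
    have hli : (l * i) % 2 = 1 := by
      have : Odd (l * i) := hlodd.mul hiodd
      exact Nat.odd_iff.1 this
    have hj3 : ∀ j ∈ J, 3 * (j / 3) = j ∧ j / 3 ≤ i ∧ (j / 3) % 2 = 1 := by
      intro j hj
      obtain ⟨h7, h8, h9⟩ := hJ j hj
      have e : l * (3 * i) = 3 * (l * i) := by ring
      rw [e] at h9
      omega
    have hc3 : l.Coprime 3 := by
      rw [Nat.coprime_primes hl Nat.prime_three]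
      exact h3
    have key : ex 3 (T l (DD ^ i)) = ex 3 (∑ j ∈ J, DD ^ (j / 3)) := by
      rw [← hEXP.2.2.2.1 3 l (DD ^ i) Nat.prime_three hc3, (hEXP.1 3 DD DD three_ne_zero).2.2.2 i, hTGR.2.2.1,
        ← pow_mul, hJs]
      rw [ex_eq three_ne_zero, map_sum]
      refine Finset.sum_congr rfl (fun j hj => ?_)
      rw [← ex_eq three_ne_zero, (hEXP.1 3 DD DD three_ne_zero).2.2.2 (j / 3), hTGR.2.2.1, ← pow_mul, (hj3 j hj).1]
    rw [GN2_ex_inj _ _ key]
    refine Submodule.sum_mem _ (fun j hj => Submodule.subset_span ⟨j / 3, ?_, ?_, rfl⟩)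
    · have := (hj3 j hj).2.1
      omega
    · rw [Nat.coprime_two_right, Nat.odd_iff]
      exact (hj3 j hj).2.2

theorem GN2_stab (hTDL : TDL_stmt) (hHT3 : HT3_stmt) (hTGR : TGR_stmt) (hEXP : EXP_stmt) (hGRD : GRD_stmt)
    (l : ℕ) (hl : l.Prime) (hl2 : l.Coprime 2) (K : ℕ) (f : FF) (hf : f ∈ VV 2 DD K) :
    T l f ∈ VV 2 DD K := by
  unfold VV at hf
  induction hf using Submodule.span_induction with
  | mem x hx =>
    obtain ⟨i, hi, hc, rfl⟩ := hx
    exact VV_mono 2 DD (by omega) (GN2_prime hTDL hHT3 hTGR hEXP hGRD l hl hl2 i hc)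
  | zero => rw [map_zero]; exact Submodule.zero_mem _
  | add x y _ _ hx hy => rw [map_add]; exact Submodule.add_mem _ hx hy
  | smul a x _ hx => rw [map_smul]; exact Submodule.smul_mem _ a hx

theorem GN2 (hTDL : TDL_stmt) (hHT3 : HT3_stmt) (hHRC : HRC_stmt) (hTGR : TGR_stmt) (hEXP : EXP_stmt)
    (hGRD : GRD_stmt) : GN2_stmt := by
  refine ⟨one_lt_two, ?_, ?_, ?_, ?_⟩
  · rw [hTGR.2.1 0, if_neg]
    rintro ⟨v, hv, h⟩
    have : v = 0 := by
      have : v ^ 2 = 0 := h.symm
      exact pow_eq_zero_iff (two_ne_zero) |>.1 this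
    subst this
    exact absurd hv (by decide)
  · rw [hTGR.2.1 1, if_pos]
    exact ⟨1, odd_one, rfl⟩
  · intro i hi m hm
    have h1 := hTGR.2.2.2.2.1 i m hm
    rw [Nat.coprime_two_right, Nat.odd_iff] at hi ⊢
    omega
  · intro n
    induction n using Nat.strong_induction_on with
    | _ n ih =>
      intro hn i hi
      by_cases h1 : n = 1
      · subst h1
        rw [GN2_T1]
        exact Submodule.subset_span ⟨i, by omega, hi, rfl⟩
      · have hn0 : n ≠ 0 := by
          rintro rfl
          exact absurd hn (by decide)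
        have hl := Nat.minFac_prime h1
        obtain ⟨n', hn'⟩ := Nat.minFac_dvd n
        set l := n.minFac with hldef
        have hn'0 : 0 < n' := by
          rcases Nat.eq_zero_or_pos n' with h | h
          · subst h
            exact absurd hn' (by simpa using hn0)
          · exact h
        have hlt : n' < n := by
          have := hl.two_le
          nlinarith
        have hcop : ∀ a : ℕ, a ∣ n → a.Coprime 2 := fun a ha => Nat.Coprime.coprime_dvd_left ha hn
        have hl2 : l.Coprime 2 := hcop l ⟨n', hn'⟩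
        have hn'2 : n'.Coprime 2 := hcop n' ⟨l, by rw [mul_comm]; exact hn'⟩
        have hrel := hHRC l n' hl hn'0
        have hT : T n = T l * T n' + (if l ∣ n' then T (n' / l) else 0) := by
          rw [hrel, ← hn', add_assoc]
          have : (if l ∣ n' then T (n' / l) else 0) + (if l ∣ n' then T (n' / l) else 0) = 0 := by
            refine LinearMap.ext (fun f => ?_)
            simp only [LinearMap.add_apply, LinearMap.zero_apply]
            exact add_self_FF _
          rw [this, add_zero]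
        rw [hT, LinearMap.add_apply, Module.End.mul_apply]
        refine Submodule.add_mem _ ?_ ?_
        · exact GN2_stab hTDL hHT3 hTGR hEXP hGRD l hl hl2 _ _ (ih n' hlt hn'2 i hi)
        · by_cases hd : l ∣ n'
          · rw [if_pos hd]
            have hd2 : n' / l ∣ n := (Nat.div_dvd_of_dvd hd).trans ⟨l, by rw [mul_comm]; exact hn'⟩
            exact ih (n' / l) (lt_of_le_of_lt (Nat.div_le_self _ _) hlt) (hcop _ hd2) i hi
          · rw [if_neg hd]
            exact Submodule.zero_mem _

end Pool.Agent.LQ
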